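import Pool.Agent.Helper24.DN.Stmt

/-! # Project DN (MP_54f31c_an): common definitions and the interfaces between the modules
(see PAPER.md).  Indices: paper `z₁, z₂, w` = Lean `z 0, z 1, z 2`. -/

open MeasureTheory Set Filter Topology
open scoped ContDiff InnerProductSpace

noncomputable section

namespace Pool.Agent.Helper24.DN

/-- `Σ φ_{jk̄} ξ_j conj ξ_k` -/
def levi (φ : C3 → ℝ) (z ξ : C3) : ℝ := AB.leviForm φ z ξ / 4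

/-- squared Euclidean norm -/
def nsq (ξ : C3) : ℝ := ∑ j, ‖ξ j‖ ^ 2

/-- trace of the Levi form -/
def leviTr (φ : C3 → ℝ) (z : C3) : ℝ := ∑ j : Fin 3, levi φ z (Pi.single j 1)

/-- `div v = 0` in the sense of distributions (`∂̄v = 0` for the `(0,2)`-form `v`). -/
def IsDbar2Zero (Ω : Set C3) (v : H2 Ω) : Prop :=
  ∀ φ, IsTestOn Ω φ → ∫ z in Ω, ∑ j : Fin 3, v z j * pdb j φ z = 0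

/-- `p` is a smooth plurisubharmonic exhaustion function of the open set `Ω`. -/
structure IsExh (Ω : Set C3) (p : C3 → ℝ) : Prop where
  smooth : ContDiffOn ℝ ∞ p Ω
  psh : ∀ z ∈ Ω, ∀ ξ, 0 ≤ levi p z ξ
  cpt : ∀ A : ℝ, IsCompact {z | z ∈ Ω ∧ p z ≤ A}

/-- (HO1) Hörmander's theorem for `(0,1)`-forms, bounded weight. `c` bounds `⟨Θ⁻¹α,α⟩`. -/
def S_HO1 : Prop := ∀ (Ω : Set C3) (p φ : C3 → ℝ) (C₁ : ℝ) (c : C3 → ℝ), IsOpen Ω → IsExh Ω p →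
  ContDiffOn ℝ ∞ φ Ω → (∀ z ∈ Ω, |φ z| ≤ C₁) → (∀ z ∈ Ω, ∀ ξ, ξ ≠ 0 → 0 < levi φ z ξ) →
  ∀ α : H1 Ω, IsDbar1 Ω α 0 → IntegrableOn c Ω → (∀ z, 0 ≤ c z) →
  (∀ᵐ z ∂(volume.restrict Ω), ∀ u : C3,
    ‖∑ j, α z j * (starRingEnd ℂ) (u j)‖ ^ 2 ≤ c z * levi φ z u) →
  ∃ h : H0 Ω, IsDbar0 Ω h α ∧ ‖h‖ ^ 2 ≤ 2 * Real.exp (2 * C₁) * ∫ z in Ω, c z

/-- (HO2) Hörmander's theorem for `(0,2)`-forms, bounded weight. -/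
def S_HO2 : Prop := ∀ (Ω : Set C3) (p φ : C3 → ℝ) (C₁ : ℝ) (c : C3 → ℝ), IsOpen Ω → IsExh Ω p →
  ContDiffOn ℝ ∞ φ Ω → (∀ z ∈ Ω, |φ z| ≤ C₁) → (∀ z ∈ Ω, ∀ ξ, ξ ≠ 0 → 0 < levi φ z ξ) →
  ∀ v : H2 Ω, IsDbar2Zero Ω v → IntegrableOn c Ω → (∀ z, 0 ≤ c z) →
  (∀ᵐ z ∂(volume.restrict Ω), ∀ u : C3, ‖∑ j, v z j * (starRingEnd ℂ) (u j)‖ ^ 2 ≤
    c z * (leviTr φ z * nsq u - levi φ z (fun j => (starRingEnd ℂ) (u j)))) →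
  ∃ g : H1 Ω, IsDbar1 Ω g v ∧ ‖g‖ ^ 2 ≤ 2 * Real.exp (2 * C₁) * ∫ z in Ω, c z

/-- weakly null bounded sequence -/
def WNull {H : Type*} [NormedAddCommGroup H] [InnerProductSpace ℂ H] (x : ℕ → H) : Prop :=
  (∀ n, ‖x n‖ ≤ 1) ∧ ∀ y : H, Tendsto (fun n => ⟪y, x n⟫_ℂ) atTop (𝓝 0)

/-- compact solvability of `∂̄` on closed `(0,1)`-forms -/
def E1P (Ω : Set C3) : Prop :=
  (∀ α : H1 Ω, IsDbar1 Ω α 0 → ∃ h, IsDbar0 Ω h α) ∧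
  ∀ α : ℕ → H1 Ω, (∀ n, IsDbar1 Ω (α n) 0) → WNull α → ∀ ε : ℝ, 0 < ε →
    ∃ h : ℕ → H0 Ω, (∀ n, IsDbar0 Ω (h n) (α n)) ∧ ∀ᶠ n in atTop, ‖h n‖ ≤ ε

/-- compact solvability of `∂̄` on closed `(0,2)`-forms -/
def E2P (Ω : Set C3) : Prop :=
  (∀ v : H2 Ω, IsDbar2Zero Ω v → ∃ g, IsDbar1 Ω g v) ∧
  ∀ v : ℕ → H2 Ω, (∀ n, IsDbar2Zero Ω (v n)) → WNull v → ∀ ε : ℝ, 0 < ε →
    ∃ g : ℕ → H1 Ω, (∀ n, IsDbar1 Ω (g n) (v n)) ∧ ∀ᶠ n in atTop, ‖g n‖ ≤ ε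

/-- (FA) -/
def S_FA : Prop := ∀ Ω : Set C3, IsOpen Ω → E1P Ω → E2P Ω →
  ∃ N : H1 Ω →L[ℂ] H1 Ω, IsNeumannOperator Ω N ∧ IsCompactOperator N

/-- forms which vanish on a large compact set have solutions of small norm -/
def E1Q (Ω : Set C3) : Prop := ∀ ε : ℝ, 0 < ε → ∃ K : Set C3, IsCompact K ∧ K ⊆ Ω ∧
  ∀ α : H1 Ω, IsDbar1 Ω α 0 → (∀ᵐ z ∂(volume.restrict Ω), z ∈ K → α z = 0) →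
    ∃ h : H0 Ω, IsDbar0 Ω h α ∧ ‖h‖ ≤ ε * ‖α‖
/-- the same for `(0,2)`-forms -/
def E2Q (Ω : Set C3) : Prop := ∀ ε : ℝ, 0 < ε → ∃ K : Set C3, IsCompact K ∧ K ⊆ Ω ∧
  ∀ v : H2 Ω, IsDbar2Zero Ω v → (∀ᵐ z ∂(volume.restrict Ω), z ∈ K → v z = 0) →
    ∃ g : H1 Ω, IsDbar1 Ω g v ∧ ‖g‖ ≤ ε * ‖v‖

/-- (IN) the interior step -/
def S_IN : Prop := S_HO1 → S_HO2 → ∀ (Ω : Set C3) (p : C3 → ℝ), IsOpen Ω →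
  Bornology.IsBounded Ω → IsExh Ω p → (E1Q Ω → E1P Ω) ∧ (E2Q Ω → E2P Ω)

/-! ## The domain -/

/-- `b(w) = 1 + |w|²/16` -/
def bb (w : ℂ) : ℝ := 1 + ‖w‖ ^ 2 / 16
/-- `f(z₂,w) = exp(-(log|z₂|)²/b(w)²)`, `f(0,w) = 0` -/
def ff (z₂ w : ℂ) : ℝ := if z₂ = 0 then 0 else Real.exp (-(Real.log ‖z₂‖ ^ 2 / bb w ^ 2))

/-- The function `H`, `h(w) = H(|w|²)`. -/
structure IsH (H : ℝ → ℝ) : Prop where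
  smooth : ContDiff ℝ ∞ H
  zero : ∀ t, t ≤ 1 → H t = 0
  mono : ∀ t, 1 < t → 0 < deriv H t
  convex : ∀ t, 0 ≤ deriv (deriv H) t
  small : H (9 / 4) ≤ 1 / 4
  big : 1 ≤ H 3

/-- The defining function `r = |z₁|² + φ₀(z₂,w) + h(w) - 1` on `|w| < 2`. -/
structure IsR (H : ℝ → ℝ) (r : C3 → ℝ) : Prop where
  smooth : ContDiffOn ℝ ∞ r {z | ‖z 2‖ < 2}
  inner : ∀ z, ‖z 2‖ < 2 → ‖z 1‖ ≤ 1 / 8 →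
    r z = ‖z 0‖ ^ 2 + ff (z 1) (z 2) + H (‖z 2‖ ^ 2) - 1
  psh : ∀ z, ‖z 2‖ < 2 → ∀ ξ : C3, ‖ξ 0‖ ^ 2 + deriv H (‖z 2‖ ^ 2) * ‖ξ 2‖ ^ 2 ≤ levi r z ξ
  strict : ∀ z, ‖z 2‖ < 2 → z 1 ≠ 0 → ∀ ξ : C3, ξ ≠ 0 → 0 < levi r z ξ
  cpt : ∀ z, ‖z 2‖ < 2 → r z ≤ 0 → ‖z 0‖ ≤ 1 ∧ ‖z 1‖ ≤ 3 / 10 ∧ ‖z 2‖ ^ 2 ≤ 3
  grad : ∀ z, ‖z 2‖ < 2 → r z = 0 → fderiv ℝ r z ≠ 0
  path : ∀ z, ‖z 2‖ < 2 → ∀ t : ℝ, 0 ≤ t → t ≤ 1 →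
    r ![t * z 0, z 1, z 2] ≤ r z ∧ r ![0, t * z 1, z 2] ≤ r ![0, z 1, z 2] ∧
      r ![0, 0, t * z 2] ≤ r ![0, 0, z 2]

/-- `Ω = {|w| < 2, r < 0}` -/
def Om (r : C3 → ℝ) : Set C3 := {z | ‖z 2‖ < 2 ∧ r z < 0}

/-- (DO) the domain exists, is smooth bounded pseudoconvex, its boundary contains a disc. -/
def S_DO : Prop := (∃ H r, IsH H ∧ IsR H r) ∧ ∀ H r, IsH H → IsR H r →
  AB.IsSmoothBoundedPseudoconvexDomain (Om r) ∧ HasBoundaryDisc (Om r) ∧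
  IsExh (Om r) (fun z => -Real.log (-r z))

/-! ## The weights -/

/-- `ε = 1 - |z₁|² - h(w)` -/
def eps (H : ℝ → ℝ) (z : C3) : ℝ := 1 - ‖z 0‖ ^ 2 - H (‖z 2‖ ^ 2)
/-- `S = √(9 - log ε)` -/
def SS (H : ℝ → ℝ) (z : C3) : ℝ := Real.sqrt (9 - Real.log (eps H z))
/-- `ρ = e^{-bS}` -/
def rh (H : ℝ → ℝ) (z : C3) : ℝ := Real.exp (-(bb (z 2) * SS H z))
/-- `X = |z₂|²e^{2bS} = |z₂|²/ρ²` -/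
def XX (H : ℝ → ℝ) (z : C3) : ℝ := ‖z 1‖ ^ 2 * Real.exp (2 * (bb (z 2) * SS H z))
/-- `∂h/∂w = H'(|w|²) conj w` -/
def hw (H : ℝ → ℝ) (w : ℂ) : ℂ := ((deriv H (‖w‖ ^ 2) : ℝ) : ℂ) * (starRingEnd ℂ) w
/-- `∂ε·ξ` -/
def dEps (H : ℝ → ℝ) (z ξ : C3) : ℂ := -((starRingEnd ℂ) (z 0) * ξ 0 + hw H (z 2) * ξ 2)
/-- `∂E·ξ = ξ₂/z₂ + 2S b_w ξ_w - (b/(Sε)) ∂ε·ξ`, `b_w = conj w/16` -/
def dE (H : ℝ → ℝ) (z ξ : C3) : ℂ :=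
  ξ 1 / z 1 + 2 * (SS H z : ℂ) * ((starRingEnd ℂ) (z 2) / 16) * ξ 2 -
    ((bb (z 2) / (SS H z * eps H z) : ℝ) : ℂ) * dEps H z ξ

/-- (COST) the weight function: bounded uniformly, with small costs near the boundary. -/
def S_COST : Prop := ∀ H r, IsH H → IsR H r → ∃ C₁ : ℝ, 0 < C₁ ∧ ∀ τ η : ℝ, 0 < τ → τ ≤ 1 / 4 →
  0 < η → ∃ (φ : C3 → ℝ) (δ : ℝ), 0 < δ ∧ ContDiffOn ℝ ∞ φ (Om r) ∧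
    (∀ z ∈ Om r, |φ z| ≤ C₁ ∧ ∀ ξ, nsq ξ ≤ levi φ z ξ) ∧
    ∀ z ∈ Om r, -δ < r z →
      ((τ ≤ XX H z ∨ 1 / 16 < ‖z 1‖ ∨ 5 / 4 ≤ ‖z 2‖) → ∀ ξ, nsq ξ ≤ η * levi φ z ξ) ∧
      (‖z 1‖ ≤ 1 / 16 → ∀ ξ : C3, ‖ξ 1‖ ^ 2 ≤ η * levi φ z ξ ∧
        ‖dEps H z ξ‖ ^ 2 * (1 + rh H z ^ 2 / (SS H z ^ 2 * eps H z ^ 2)) ≤ η * levi φ z ξ) ∧
      (‖z 1‖ ≤ 1 / 16 → τ ≤ XX H z → ∀ ξ : C3,
        ‖dE H z ξ‖ ^ 2 * rh H z ^ 2 ≤ η * levi φ z ξ)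

/-- (E1) -/
def S_E1 : Prop := S_HO1 → S_COST → ∀ H r, IsH H → IsR H r → IsExh (Om r)
  (fun z => -Real.log (-r z)) → E1Q (Om r)
/-- (E2) -/
def S_E2 : Prop := S_HO2 → S_COST → ∀ H r, IsH H → IsR H r → IsExh (Om r)
  (fun z => -Real.log (-r z)) → E2Q (Om r)

/-- The final assembly. -/
theorem dn_of (hO1 : S_HO1) (hO2 : S_HO2) (hFA : S_FA) (hIN : S_IN) (hDO : S_DO) (hC : S_COST)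
    (h1 : S_E1) (h2 : S_E2) : S_DN := by
  obtain ⟨⟨H, r, hH, hr⟩, hD⟩ := hDO
  obtain ⟨hs, hd, hx⟩ := hD H r hH hr
  obtain ⟨i1, i2⟩ := hIN hO1 hO2 (Om r) _ hs.isOpen hs.isBounded hx
  exact ⟨Om r, hs, hd, hFA (Om r) hs.isOpen (i1 (h1 hO1 hC H r hH hr hx))
    (i2 (h2 hO2 hC H r hH hr hx))⟩

end Pool.Agent.Helper24.DN
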