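import Pool.Agent.Helper24.AB.Stmt

/-! # Project DN (MP_54f31c_an): definitions of the final statement.

The `∂̄`-Neumann operator `N₁` on `L²_{(0,1)}(Ω)`, `Ω ⊂ ℂ³`. -/

open MeasureTheory Set Filter Topology
open scoped ContDiff InnerProductSpace

noncomputable section

namespace Pool.Agent.Helper24.DN

/-- `ℂ³` -/
abbrev C3 := Fin 3 → ℂ

/-- `L²(Ω)` -/
abbrev H0 (Ω : Set C3) := Lp ℂ 2 (volume.restrict Ω)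
/-- `L²_{(0,1)}(Ω)`: `u = u₀ dz̄₀ + u₁ dz̄₁ + u₂ dz̄₂`. -/
abbrev H1 (Ω : Set C3) := Lp (EuclideanSpace ℂ (Fin 3)) 2 (volume.restrict Ω)
/-- `L²_{(0,2)}(Ω)`: `v = v₀ dz̄₁∧dz̄₂ + v₁ dz̄₂∧dz̄₀ + v₂ dz̄₀∧dz̄₁`. -/
abbrev H2 (Ω : Set C3) := Lp (EuclideanSpace ℂ (Fin 3)) 2 (volume.restrict Ω)

/-- `∂φ/∂z̄_j` of a smooth function. -/
def pdb (j : Fin 3) (φ : C3 → ℂ) (z : C3) : ℂ :=
  (fderiv ℝ φ z (Pi.single j 1) + Complex.I * fderiv ℝ φ z (Pi.single j Complex.I)) / 2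

/-- Test functions on `Ω`. -/
def IsTestOn (Ω : Set C3) (φ : C3 → ℂ) : Prop :=
  ContDiff ℝ ∞ φ ∧ HasCompactSupport φ ∧ tsupport φ ⊆ Ω

/-- `∂̄h = g`, in the sense of distributions, `h ∈ L²(Ω)`, `g ∈ L²_{(0,1)}(Ω)`: `∂h/∂z̄_j = g_j`. -/
def IsDbar0 (Ω : Set C3) (h : H0 Ω) (g : H1 Ω) : Prop :=
  ∀ φ, IsTestOn Ω φ → ∀ j : Fin 3,
    ∫ z in Ω, h z * pdb j φ z = -∫ z in Ω, g z j * φ z

/-- `∂̄u = v`, in the sense of distributions, `u ∈ L²_{(0,1)}(Ω)`, `v ∈ L²_{(0,2)}(Ω)`: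
`v_j = ∂u_{j+2}/∂z̄_{j+1} - ∂u_{j+1}/∂z̄_{j+2}` (indices modulo 3). -/
def IsDbar1 (Ω : Set C3) (u : H1 Ω) (v : H2 Ω) : Prop :=
  ∀ φ, IsTestOn Ω φ → ∀ j : Fin 3,
    ∫ z in Ω, (u z (j + 2) * pdb (j + 1) φ z - u z (j + 1) * pdb (j + 2) φ z) =
      -∫ z in Ω, v z j * φ z

/-- `∂̄*u = f`: Hilbert space adjoint of `∂̄ : L²(Ω) → L²_{(0,1)}(Ω)`. -/
def IsDbar0Adj (Ω : Set C3) (u : H1 Ω) (f : H0 Ω) : Prop :=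
  ∀ h g, IsDbar0 Ω h g → ⟪u, g⟫_ℂ = ⟪f, h⟫_ℂ

/-- `∂̄*v = u`: Hilbert space adjoint of `∂̄ : L²_{(0,1)}(Ω) → L²_{(0,2)}(Ω)`. -/
def IsDbar1Adj (Ω : Set C3) (v : H2 Ω) (u : H1 Ω) : Prop :=
  ∀ w x, IsDbar1 Ω w x → ⟪v, x⟫_ℂ = ⟪u, w⟫_ℂ

/-- `□₁u = f`, `□₁ = ∂̄∂̄* + ∂̄*∂̄` with its natural domain. -/
def IsBox1 (Ω : Set C3) (u f : H1 Ω) : Prop :=
  ∃ (a : H0 Ω) (b : H2 Ω) (c d : H1 Ω), IsDbar0Adj Ω u a ∧ IsDbar0 Ω a c ∧ IsDbar1 Ω u b ∧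
    IsDbar1Adj Ω b d ∧ f = c + d

/-- `N` is the `∂̄`-Neumann operator `N₁`, the bounded inverse of `□₁`. -/
def IsNeumannOperator (Ω : Set C3) (N : H1 Ω →L[ℂ] H1 Ω) : Prop :=
  (∀ f, IsBox1 Ω (N f) f) ∧ ∀ u f, IsBox1 Ω u f → N f = u

/-- The boundary of `Ω` contains a nontrivial analytic disc. -/
def HasBoundaryDisc (Ω : Set C3) : Prop :=
  ∃ γ : ℂ → C3, DifferentiableOn ℂ γ (Metric.ball 0 1) ∧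
    MapsTo γ (Metric.ball 0 1) (frontier Ω) ∧
    ∃ a ∈ Metric.ball (0 : ℂ) 1, ∃ b ∈ Metric.ball (0 : ℂ) 1, γ a ≠ γ b

/-- The final statement. -/
def S_DN : Prop :=
  ∃ Ω : Set C3, AB.IsSmoothBoundedPseudoconvexDomain Ω ∧ HasBoundaryDisc Ω ∧
    ∃ N : H1 Ω →L[ℂ] H1 Ω, IsNeumannOperator Ω N ∧ IsCompactOperator N

end Pool.Agent.Helper24.DN
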